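import Mathlib
import Pool.Agent.W437.HR.Final

/-!
# The tangent space for the Lie algebra generated by a set of period matrices

This is the argument of the starting files `Pool/Agent/W437/HR/Trip.lean`, `Low.lean`, `Final.lean`
with the Lie algebra generated by the conjugates of one period matrix replaced by the Lie
algebra generated by the conjugates of all members of a set `W`.
-/

set_option linter.unusedSectionVars false
set_option linter.unusedSimpArgs false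

namespace Pool.Agent.TH504.VL

open Matrix Module Pool.Agent.H204R3.CM Pool.Agent.H194R3.CM Pool.Agent.W437.HC
  Pool.Agent.W437.HD Pool.Agent.W437.HP Pool.Agent.W437.HQ Pool.Agent.W437.HR Pool.Agent.W548.Odd

variable {g : ℕ} {Z : Matrix (Fin g) (Fin g) ℂ} {W : Set (Matrix (Fin g) (Fin g) ℂ)}

/-- The symmetric matrices which give elements of the Lie algebra generated by the conjugates of the
members of `W`. -/
noncomputable def WS (W : Set (Matrix (Fin g) (Fin g) ℂ)) (Z : Matrix (Fin g) (Fin g) ℂ) : Submodule ℂ (Matrix (Fin g) (Fin g) ℂ) where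
  carrier := {N | Nᵀ = N ∧ TT Z * N * (TT Z)ᵀ * Om g ℂ ∈ LA (DZ '' W)}
  zero_mem' := by
    refine ⟨transpose_zero, ?_⟩
    rw [Matrix.mul_zero, Matrix.zero_mul, Matrix.zero_mul]
    exact Submodule.zero_mem _
  add_mem' := by
    rintro N N' ⟨h1, h2⟩ ⟨h3, h4⟩
    refine ⟨by rw [transpose_add, h1, h3], ?_⟩
    rw [Matrix.mul_add, Matrix.add_mul, Matrix.add_mul]
    exact Submodule.add_mem _ h2 h4
  smul_mem' := by
    rintro c N ⟨h1, h2⟩
    refine ⟨by rw [transpose_smul, h1], ?_⟩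
    rw [Matrix.mul_smul, Matrix.smul_mul, Matrix.smul_mul]
    exact Submodule.smul_mem _ _ h2



theorem TB_mem_LAW {N : Matrix (Fin g) (Fin g) ℂ} (hN : N ∈ WS W Z) :
    TB Z * Nᴴ * (TB Z)ᵀ * Om g ℂ ∈ LA (DZ '' W) := by
  obtain ⟨h1, h2⟩ := hN
  have h3 := LA_aut (starRingEnd ℂ) h2
  rw [map_conj_mul, map_conj_mul, map_conj_mul, TT_conj, Om_aut, transpose_map, TT_conj] at h3
  have h4 : Nᴴ = N.map (starRingEnd ℂ) := by
    conv_lhs => rw [← h1]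
    rw [conjTranspose, transpose_transpose]
    rfl
  rw [h4]
  exact h3

theorem WS_le_WP (hL : LA (DZ '' W) ≤ lieM (DZ Z) ℂ) : WS W Z ≤ WP Z :=
  fun _ hN => ⟨hN.1, hL hN.2⟩

/-- The triple product. -/
theorem WS_tr (hZ : Zᵀ = Z) (hY : IsUnit (imM Z).det) {A C E : Matrix (Fin g) (Fin g) ℂ}
    (hA : A ∈ WS W Z) (hC : C ∈ WS W Z) (hE : E ∈ WS W Z) :
    A * cm (imM Z)⁻¹ * Cᴴ * cm (imM Z)⁻¹ * E + E * cm (imM Z)⁻¹ * Cᴴ * cm (imM Z)⁻¹ * A ∈ WS W Z := by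
  set K := cm (imM Z)⁻¹ with hK
  have hKT : Kᵀ = K := by
    rw [hK]
    unfold cm
    rw [← transpose_map, transpose_nonsing_inv, imM_symm hZ]
  have hCT : (Cᴴ)ᵀ = Cᴴ := conjT_symm hC.1
  refine ⟨?_, ?_⟩
  · rw [transpose_add, transpose_mul, transpose_mul, transpose_mul, transpose_mul, transpose_mul,
      transpose_mul, transpose_mul, transpose_mul, hKT, hCT, hA.1, hE.1, add_comm]
    simp only [Matrix.mul_assoc]
  · set X := TT Z * A * (TT Z)ᵀ * Om g ℂ with hX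
    set X' := TT Z * E * (TT Z)ᵀ * Om g ℂ with hX'
    set Y := TB Z * Cᴴ * (TB Z)ᵀ * Om g ℂ with hY'
    have hXm : X ∈ LA (DZ '' W) := hA.2
    have hXm' : X' ∈ LA (DZ '' W) := hE.2
    have hYm : Y ∈ LA (DZ '' W) := TB_mem_LAW hC
    have h1 := LA_br (LA_br hXm hYm) hXm'
    have hXX : X * X' = 0 := by
      have h2 : X * X' = TT Z * A * ((TT Z)ᵀ * Om g ℂ * TT Z) * E * (TT Z)ᵀ * Om g ℂ := by
        rw [hX, hX']
        simp only [Matrix.mul_assoc]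
      rw [h2, TT_TT hZ hY, Matrix.mul_zero, Matrix.zero_mul, Matrix.zero_mul, Matrix.zero_mul]
    have hXX' : X' * X = 0 := by
      have h2 : X' * X = TT Z * E * ((TT Z)ᵀ * Om g ℂ * TT Z) * A * (TT Z)ᵀ * Om g ℂ := by
        rw [hX, hX']
        simp only [Matrix.mul_assoc]
      rw [h2, TT_TT hZ hY, Matrix.mul_zero, Matrix.zero_mul, Matrix.zero_mul, Matrix.zero_mul]
    have h2 : (X * Y - Y * X) * X' - X' * (X * Y - Y * X) =
        X * Y * X' + X' * Y * X - Y * (X * X') - (X' * X) * Y := by noncomm_ring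
    rw [h2, hXX, hXX', mul_zero, zero_mul, sub_zero, sub_zero] at h1
    have h3 : ∀ A E : Matrix (Fin g) (Fin g) ℂ,
        TT Z * A * (TT Z)ᵀ * Om g ℂ * Y * (TT Z * E * (TT Z)ᵀ * Om g ℂ) =
        (4 : ℂ) • (TT Z * (A * K * Cᴴ * K * E) * (TT Z)ᵀ * Om g ℂ) := by
      intro A E
      have h4 : TT Z * A * (TT Z)ᵀ * Om g ℂ * Y * (TT Z * E * (TT Z)ᵀ * Om g ℂ) =
          TT Z * A * ((TT Z)ᵀ * Om g ℂ * TB Z) * Cᴴ * ((TB Z)ᵀ * Om g ℂ * TT Z) * E *
            (TT Z)ᵀ * Om g ℂ := by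
        rw [hY']
        simp only [Matrix.mul_assoc]
      rw [h4, TT_TB hZ hY, TB_TT hZ hY, ← hK]
      simp only [Matrix.mul_smul, Matrix.smul_mul, smul_smul]
      have h5 : -(2 * Complex.I) * (2 * Complex.I) = 4 := by
        linear_combination (-4 : ℂ) * Complex.I_mul_I
      rw [h5]
      simp only [Matrix.mul_assoc]
    rw [h3 A E, h3 E A, ← smul_add, ← Matrix.add_mul, ← Matrix.add_mul, ← Matrix.mul_add] at h1
    exact LA_of_smul (by norm_num) h1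

/-- There is a symmetric matrix of rank at most three. -/
theorem WS_rank_three (hZ : Zᵀ = Z) (hpos : (imM Z).PosDef)
    (hdim : g ^ 2 + 1 < 8 * finrank ℂ (WS W Z) + 2 * g) :
    ∃ N ∈ WS W Z, N ≠ 0 ∧ N.rank ≤ 3 := by
  have hY : IsUnit (imM Z).det := hpos.isUnit.map Matrix.detMonoidHom
  obtain ⟨y, hy, hyy⟩ := exists_sqrt hpos.inv
  rw [star_eq_conjTranspose, conjTranspose_eq_transpose_of_trivial] at hyy
  obtain ⟨yi, hyyi⟩ : ∃ yi, y * yi = 1 := hy.exists_right_inv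
  have hyiy : yi * y = 1 := mul_eq_one_comm.1 hyyi
  set c := cm y with hc
  set ci := cm yi with hci
  have hcic : ci * c = 1 := by rw [hc, hci, ← cm_mul, hyiy, cm_one]
  have hcci : c * ci = 1 := by rw [hc, hci, ← cm_mul, hyyi, cm_one]
  have hcT : cᵀ * ciᵀ = 1 := by rw [← transpose_mul, hcic, transpose_one]
  have hcH : cᴴ = cᵀ := by
    ext i j
    simp [hc, cm]
  have hcTH : (cᵀ)ᴴ = c := by
    ext i j
    simp [hc, cm]
  have hK : cm (imM Z)⁻¹ = cᵀ * c := by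
    have h1 : cm yᵀ = cᵀ := by
      rw [hc]
      unfold cm
      rw [transpose_map]
    rw [hyy, cm_mul, h1]
  let φ : Matrix (Fin g) (Fin g) ℂ →ₗ[ℂ] Matrix (Fin g) (Fin g) ℂ :=
    { toFun := fun N => c * N * cᵀ
      map_add' := fun N N' => by rw [mul_add, add_mul]
      map_smul' := fun a N => by
        rw [mul_smul_comm, smul_mul_assoc]
        rfl }
  have hφ : ∀ N, φ N = c * N * cᵀ := fun N => rfl
  have hφi : ∀ N : Matrix (Fin g) (Fin g) ℂ, ci * φ N * ciᵀ = N := by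
    intro N
    have h2 : ci * φ N * ciᵀ = (ci * c) * N * (cᵀ * ciᵀ) := by
      rw [hφ]
      simp only [mul_assoc]
    rw [h2, hcic, hcT, one_mul, mul_one]
  have hinj : Function.Injective φ := by
    intro N N' h
    rw [← hφi N, h, hφi N']
  let W' := (WS W Z).map φ
  have hfr : finrank ℂ W' = finrank ℂ (WS W Z) :=
    (LinearEquiv.finrank_eq (Submodule.equivMapOfInjective φ hinj (WS W Z))).symm
  have hsym : ∀ X ∈ W', Xᵀ = X := by
    rintro _ ⟨N, hN, rfl⟩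
    rw [hφ, transpose_mul, transpose_mul, transpose_transpose, hN.1, mul_assoc]
  have htr : ∀ A ∈ W', ∀ C ∈ W', ∀ E ∈ W', A * Cᴴ * E + E * Cᴴ * A ∈ W' := by
    rintro _ ⟨A, hA, rfl⟩ _ ⟨C, hC, rfl⟩ _ ⟨E, hE, rfl⟩
    refine ⟨_, WS_tr hZ hY hA hC hE, ?_⟩
    have h1 : ∀ A E : Matrix (Fin g) (Fin g) ℂ,
        φ A * (φ C)ᴴ * φ E = φ (A * cm (imM Z)⁻¹ * Cᴴ * cm (imM Z)⁻¹ * E) := by
      intro A E
      rw [hφ, hφ, hφ, hφ, conjTranspose_mul, conjTranspose_mul, hcH, hcTH, hK]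
      simp only [mul_assoc]
    rw [h1, h1, map_add]
  obtain ⟨X, ⟨N, hN, rfl⟩, hX0, hXr⟩ := exists_rank_three hsym htr (by
    rw [hfr, Fintype.card_fin]
    exact hdim)
  refine ⟨N, hN, ?_, ?_⟩
  · rintro rfl
    exact hX0 (map_zero φ)
  · rw [← hφi N]
    exact ((rank_mul_le_left _ _).trans (rank_mul_le_right _ _)).trans hXr

/-- There is a square or a product of two eigenvectors in the Lie algebra. -/
theorem lowW (hZ : Zᵀ = Z) (hpos : (imM Z).PosDef) (hs : IsSimpleAV Z)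
    (hW : IsPer W) (hZW : Z ∈ W) (hL : LA (DZ '' W) ≤ lieM (DZ Z) ℂ)
    (hdim : g ^ 2 + 1 < 8 * finrank ℂ (WS W Z) + 2 * g) :
    (∃ v : Fin g ⊕ Fin g → ℂ, v ≠ 0 ∧ SS (Om g ℂ) v v ∈ lieM (DZ Z) ℂ) ∨
    ∃ v w : Fin g ⊕ Fin g → ℂ, DZ Z *ᵥ v = v ∧ DZ Z *ᵥ w = w ∧
      (∀ a b : ℂ, a • v + b • w = 0 → a = 0 ∧ b = 0) ∧ SS (Om g ℂ) v w ∈ lieM (DZ Z) ℂ := by
  have hY : IsUnit (imM Z).det := hpos.isUnit.map Matrix.detMonoidHom
  obtain ⟨N, hN, hN0, hNr⟩ := WS_rank_three hZ hpos hdim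
  have hN1 : 1 ≤ N.rank := by
    by_contra h
    apply hN0
    have h0 : N.rank = 0 := by omega
    unfold Matrix.rank at h0
    have h2 := Submodule.finrank_eq_zero.1 h0
    ext i j
    have h3 : N *ᵥ (Pi.single j 1) ∈ LinearMap.range (mulVecLin N) := ⟨_, rfl⟩
    rw [h2, Submodule.mem_bot, mulVec_single_one] at h3
    exact congrFun h3 i
  have hXX : (TT Z * N * (TT Z)ᵀ * Om g ℂ) * (TT Z * N * (TT Z)ᵀ * Om g ℂ) = 0 := by
    have h2 : (TT Z * N * (TT Z)ᵀ * Om g ℂ) * (TT Z * N * (TT Z)ᵀ * Om g ℂ) =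
        TT Z * N * ((TT Z)ᵀ * Om g ℂ * TT Z) * N * (TT Z)ᵀ * Om g ℂ := by
      simp only [Matrix.mul_assoc]
    rw [h2, TT_TT hZ hY, Matrix.mul_zero, Matrix.zero_mul, Matrix.zero_mul, Matrix.zero_mul]
  by_cases hodd : Odd N.rank
  · left
    obtain ⟨e, he, he1⟩ := Pool.Agent.W548.Odd.exists_rank_one hW
      hZW hs (ε := 1) (N := TT Z * N * (TT Z)ᵀ * Om g ℂ)
      (fun X _ => by rw [one_mul, mul_one]) (one_mul 1)
      (by rw [Matrix.transpose_one, one_mul, mul_one])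
      (fun c _ => by rw [one_mul, mul_one]) hN.2 hXX (by rw [one_mul, rank_TT hZ hY]; exact hodd)
    exact sq_of_rank_one hZ (hL he) he1
  have hr2 : N.rank = 2 := by
    rcases Nat.not_odd_iff_even.1 hodd with ⟨k, hk⟩
    omega
  -- the matrix is a product of two vectors
  obtain ⟨a, b, hab⟩ : ∃ a b : Fin g → ℂ, N = vecMulVec a b + vecMulVec b a :=
    exists_prod hN.1 hr2
  have hSS : SS (Om g ℂ) (TT Z *ᵥ a) (TT Z *ᵥ b) = TT Z * N * (TT Z)ᵀ * Om g ℂ := by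
    unfold SS
    rw [hab]
    congr 1
    rw [Matrix.mul_add, Matrix.add_mul, mul_vecMulVec, mul_vecMulVec, vecMulVec_mul,
      vecMulVec_mul, vecMul_transpose, vecMul_transpose]
  have hmem : SS (Om g ℂ) (TT Z *ᵥ a) (TT Z *ᵥ b) ∈ lieM (DZ Z) ℂ := by
    rw [hSS]
    exact hL hN.2
  have hne : SS (Om g ℂ) (TT Z *ᵥ a) (TT Z *ᵥ b) ≠ 0 := by
    rw [hSS]
    exact fun h => hN0 (TT_inj hZ hY h)
  by_cases hli : ∀ α β : ℂ, α • (TT Z *ᵥ a) + β • (TT Z *ᵥ b) = 0 → α = 0 ∧ β = 0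
  · right
    refine ⟨_, _, ?_, ?_, hli, hmem⟩
    · rw [mulVec_mulVec, DZ_TT hY]
    · rw [mulVec_mulVec, DZ_TT hY]
  · left
    push Not at hli
    obtain ⟨α, β, h1, h2⟩ := hli
    have key : ∀ x y : Fin g ⊕ Fin g → ℂ, ∀ c : ℂ, x = c • y → SS (Om g ℂ) x y ≠ 0 →
        SS (Om g ℂ) x y ∈ lieM (DZ Z) ℂ → y ≠ 0 ∧ SS (Om g ℂ) y y ∈ lieM (DZ Z) ℂ := by
      rintro x y c rfl h3 h4
      rw [SS_smul_left] at h3 h4
      have hc : c ≠ 0 := by
        rintro rfl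
        exact h3 (zero_smul _ _)
      refine ⟨?_, mem_of_smul_mem hc h4⟩
      rintro rfl
      rw [SS_zero_left, smul_zero] at h3
      exact h3 rfl
    by_cases hα : α = 0
    · have hβ := h2 hα
      have h3 : TT Z *ᵥ b = (0 : ℂ) • (TT Z *ᵥ a) := by
        rw [hα, zero_smul, zero_add] at h1
        rw [zero_smul]
        exact (smul_eq_zero.1 h1).resolve_left hβ
      rw [SS_comm] at hne hmem
      exact ⟨_, key _ _ 0 h3 hne hmem⟩
    · have h3 : TT Z *ᵥ a = (-(β / α)) • (TT Z *ᵥ b) := by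
        have h4 := congrArg (fun x => α⁻¹ • x) h1
        simp only [smul_add, smul_smul, inv_mul_cancel₀ hα, one_smul, smul_zero] at h4
        rw [eq_neg_of_add_eq_zero_left h4, neg_smul]
        congr 2
        ring
      exact ⟨_, key _ _ _ h3 hne hmem⟩

/-- The situation without squares. -/
theorem exists_frameW (hZ : Zᵀ = Z) (hpos : (imM Z).PosDef) (hs : IsSimpleAV Z)
    (hW : IsPer W) (hZW : Z ∈ W) (hL : LA (DZ '' W) ≤ lieM (DZ Z) ℂ)
    (hdim : g ^ 2 + 1 < 8 * finrank ℂ (WS W Z) + 2 * g)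
    (hsq : ¬ ∃ v : Fin g ⊕ Fin g → ℂ, v ≠ 0 ∧ SS (Om g ℂ) v v ∈ lieM (DZ Z) ℂ) :
    LieN (wwL (Om g ℂ)) (mq Z) ∧ Nonempty (Fin g) ∧
    ∃ (v w v' w' : Fin g ⊕ Fin g → ℂ),
      DZ Z *ᵥ v = v ∧ DZ Z *ᵥ w = w ∧ Frame (wwL (Om g ℂ)) (mq Z) v w v' w' := by
  rcases lowW hZ hpos hs hW hZW hL hdim with h | ⟨v, w, hv, hw, hli, hX⟩
  · exact absurd h hsq
  push Not at hsq
  have hm : LieN (wwL (Om g ℂ)) (mq Z) := lieN hZ hpos fun x hx => by
    by_contra h0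
    exact hsq x h0 hx
  obtain ⟨v', w', F⟩ := frame_of_pair hZ hpos hm.toLieS hv hw hli hX
  have hv0 : v ≠ 0 := by
    rintro rfl
    have h1 := F.vv'
    rw [map_zero, LinearMap.zero_apply] at h1
    exact zero_ne_one h1
  have hne : Nonempty (Fin g) := by
    by_contra hne
    rw [not_nonempty_iff] at hne
    apply hv0
    funext i
    rcases i with i | i
    · exact hne.elim i
    · exact hne.elim i
  exact ⟨hm, hne, v, w, v', w', hv, hw, F⟩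

/-- The situation without squares, for more than `g ^ 2 / 8` periods. -/
theorem exists_epsW (hZ : Zᵀ = Z) (hpos : (imM Z).PosDef) (hs : IsSimpleAV Z)
    (hW : IsPer W) (hZW : Z ∈ W) (hL : LA (DZ '' W) ≤ lieM (DZ Z) ℂ)
    (hdim : g ^ 2 < 8 * finrank ℂ (WS W Z))
    (hsq : ¬ ∃ v : Fin g ⊕ Fin g → ℂ, v ≠ 0 ∧ SS (Om g ℂ) v v ∈ lieM (DZ Z) ℂ) :
    LieN (wwL (Om g ℂ)) (mq Z) ∧ Nonempty (Fin g) ∧
    ∃ (v w v' w' : Fin g ⊕ Fin g → ℂ) (ε : Module.End ℂ (Fin g ⊕ Fin g → ℂ)),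
      DZ Z *ᵥ v = v ∧ DZ Z *ᵥ w = w ∧ Frame (wwL (Om g ℂ)) (mq Z) v w v' w' ∧
      PP (wwL (Om g ℂ)) (mq Z) v w v' w' = ⊤ ∧ IsEps (wwL (Om g ℂ)) (mq Z) v w v' w' ε := by
  have hg : 1 ≤ g := by
    by_contra h
    have h0 : g = 0 := by omega
    subst h0
    have h1 : finrank ℂ (WS W Z) ≤ 0 := by
      have h2 := Submodule.finrank_le (WS W Z)
      rw [Module.finrank_matrix] at h2
      simpa using h2
    omega
  obtain ⟨hm, hne, v, w, v', w', hv, hw, F⟩ := exists_frameW hZ hpos hs hW hZW hL (by omega) hsq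
  have htop := PP_top8 hZ hpos hs hm F
    (lt_of_lt_of_le hdim (Nat.mul_le_mul_left 8 (Submodule.finrank_mono (WS_le_WP hL))))
  obtain ⟨ε, hε⟩ := F.exists_eps hm htop
  exact ⟨hm, hne, v, w, v', w', ε, hv, hw, F, htop, hε⟩

/-- The dichotomy for more than `g ^ 2 / 8` periods. -/
theorem dichotomyW (hZ : Zᵀ = Z) (hpos : (imM Z).PosDef) (hs : IsSimpleAV Z)
    (hW : IsPer W) (hZW : Z ∈ W) (hL : LA (DZ '' W) ≤ lieM (DZ Z) ℂ)
    (hdim : g ^ 2 < 8 * finrank ℂ (WS W Z)) :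
    (∀ (n m : ℕ) (f : (Fin n → Fin g ⊕ Fin g → ℚ) [⋀^Fin m × Fin 2]→ₗ[ℚ] ℚ),
      IsHodge (perPow Z n) f → f ∈ divisorial (perPow Z n) m) ∨ IsWeil Z := by
  have hY : IsUnit (imM Z).det := hpos.isUnit.map Matrix.detMonoidHom
  by_cases hsq : ∃ v : Fin g ⊕ Fin g → ℂ, v ≠ 0 ∧ SS (Om g ℂ) v v ∈ lieM (DZ Z) ℂ
  · obtain ⟨v, hv, h⟩ := hsq
    exact Or.inl fun n m f hf =>
      divisorial_of_good hZ hY hs ⟨v, good_of_sq_gen hZ hpos hv h⟩ f hf
  obtain ⟨hm, _, v, w, v', w', ε, hv, hw, F, htop, hε⟩ := exists_epsW hZ hpos hs hW hZW hL hdim hsq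
  by_cases h0 : ∀ b, GP (wwL (Om g ℂ)) (mq Z) v w v' w' 0 b → b = 0
  · left
    intro n m f hf
    obtain ⟨h2, h3⟩ := F.sp_conds hm h0
    obtain ⟨θ, hθ⟩ := F.exists_theta hm htop h0 h2
    exact mem_divisorial_of_MS hY
      (fun c hc => mem_MS_of_theta hm F htop hε hθ h3 hZ hv hw c hc) f hf
  push Not at h0
  obtain ⟨b0, hb, hb0⟩ := h0
  have hd : ∀ a b, GP (wwL (Om g ℂ)) (mq Z) v w v' w' a b →
      GP (wwL (Om g ℂ)) (mq Z) v w v' w' 0 b ∧ GP (wwL (Om g ℂ)) (mq Z) v w v' w' a 0 := by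
    rcases F.dich hm with h | ⟨h1, _, _⟩
    · exact h
    · exact absurd (h1 _ hb) hb0
  have hDm : Matrix.toLin' (DZ Z) ∈ mq Z := toLin_mem_mq.2 (D_mem _)
  by_cases htr : LinearMap.trace ℂ _ (Matrix.toLin' (DZ Z) * ε) = 0
  · right
    refine (em_of_eps hm F htop hε).isWeil hZ hpos ?_ ?_
    · rw [trace_mul_comm, ← htr, ← trace_toMatrix, LinearMap.toMatrix'_mul,
        LinearMap.toMatrix'_toLin']
    · intro A hA
      obtain ⟨α, β, h1⟩ := F.sl_comm hm htop hε hd hb hb0 (φ := Matrix.toLin' A)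
        (fun Y hY => by
          have h1 := hA _ (mem_mq.1 hY)
          apply LinearMap.toMatrix'.injective
          rw [LinearMap.toMatrix'_mul, LinearMap.toMatrix'_mul, LinearMap.toMatrix'_toLin', h1])
      refine ⟨α, β, ?_⟩
      have h2 := congrArg LinearMap.toMatrix' h1
      rwa [LinearMap.toMatrix'_toLin', map_add, map_smul, map_smul, LinearMap.toMatrix'_one] at h2
  · left
    intro n m f hf
    refine divisorial_of_SS hZ hpos hs (EE_mem.1 (F.sl_eps hm htop hε hd hDm htr)) ?_ f hf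
    have h1 := F.vv'
    rw [wwL_apply] at h1
    rw [h1]
    exact one_ne_zero

/-- Without endomorphisms whose square is a negative rational number the space is the sum of the
subspaces generated by good vectors. -/
theorem UU_topW (hZ : Zᵀ = Z) (hpos : (imM Z).PosDef) (hs : IsSimpleAV Z)
    (hW : IsPer W) (hZW : Z ∈ W) (hL : LA (DZ '' W) ≤ lieM (DZ Z) ℂ)
    (hdim : g ^ 2 < 8 * finrank ℂ (WS W Z)) (hno : ¬ HasImag Z) :
    UU (DZ Z) (Om g ℂ) = ⊤ := by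
  have hY : IsUnit (imM Z).det := hpos.isUnit.map Matrix.detMonoidHom
  by_cases hsq : ∃ v : Fin g ⊕ Fin g → ℂ, v ≠ 0 ∧ SS (Om g ℂ) v v ∈ lieM (DZ Z) ℂ
  · obtain ⟨v, hv, h⟩ := hsq
    exact UU_eq_top hZ hY hs ⟨v, good_of_sq_gen hZ hpos hv h⟩
  exfalso
  obtain ⟨hm, _, v, w, v', w', ε, hv, hw, F, htop, hε⟩ := exists_epsW hZ hpos hs hW hZW hL hdim hsq
  have hE := em_of_eps hm F htop hε
  obtain ⟨φ, c, hc, hφ⟩ := hE.exists_phi
  obtain ⟨d, hd, hφφ⟩ := hE.phi_sq hZ hpos hc hφ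
  have hcomm : cq φ * DZ Z = DZ Z * cq φ := by
    rw [hφ, Matrix.smul_mul, Matrix.mul_smul, hE.comm _ (D_mem _)]
  exact hno ⟨φ, _, d, hd, endo_of_comm hY hcomm, hφφ⟩

/-- The pieces in the case of a totally real centre. -/
theorem hasPcs_of_realW (hZ : Zᵀ = Z) (hpos : (imM Z).PosDef) (hs : IsSimpleAV Z)
    (hW : IsPer W) (hZW : Z ∈ W) (hL : LA (DZ '' W) ≤ lieM (DZ Z) ℂ)
    (hdim : g ^ 2 + 1 < 8 * finrank ℂ (WS W Z) + 2 * g) (hr : RealCentre Z) : HasPcs (DZ Z) := by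
  have hY : IsUnit (imM Z).det := hpos.isUnit.map Matrix.detMonoidHom
  by_cases hsq : ∃ v : Fin g ⊕ Fin g → ℂ, v ≠ 0 ∧ SS (Om g ℂ) v v ∈ lieM (DZ Z) ℂ
  · obtain ⟨v, hv, h⟩ := hsq
    exact hasPcs_of_top (Om_transpose ℂ) (Om_unit ℂ) (sp_C hZ)
      (UU_eq_top hZ hY hs ⟨v, good_of_sq_gen hZ hpos hv h⟩)
  obtain ⟨hm, _, v, w, v', w', _, _, F⟩ := exists_frameW hZ hpos hs hW hZW hL hdim hsq
  obtain ⟨k, ix, hk, horth, htop, hall⟩ := decomp hm (ι := ℂ ≃+* ℂ)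
    (fun σ => Pool.Agent.W437.HQ.cj σ v) (fun σ => Pool.Agent.W437.HQ.cj σ w) (fun σ => Pool.Agent.W437.HQ.cj σ v') (fun σ => Pool.Agent.W437.HQ.cj σ w')
    (fun σ => F.cj σ) (fun σ => finrank_cj σ) (sup_cj hpos hs hm F)
  have hnb := fun q => not_bad hZ hpos hr hm (F.cj (ix q))
  have h0 : ∀ q b, GP (wwL (Om g ℂ)) (mq Z) (Pool.Agent.W437.HQ.cj (ix q) v) (Pool.Agent.W437.HQ.cj (ix q) w) (Pool.Agent.W437.HQ.cj (ix q) v')
      (Pool.Agent.W437.HQ.cj (ix q) w') 0 b → b = 0 := by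
    intro q b hb
    by_contra hb0
    exact hnb q (Or.inl ⟨b, hb, hb0⟩)
  refine hasPcs_of_frames hm (fun q => Pool.Agent.W437.HQ.cj (ix q) v) (fun q => Pool.Agent.W437.HQ.cj (ix q) w)
    (fun q => Pool.Agent.W437.HQ.cj (ix q) v') (fun q => Pool.Agent.W437.HQ.cj (ix q) w') (fun q => F.cj (ix q)) horth htop h0
    (fun q => ((F.cj (ix q)).sp_conds hm (h0 q)).1) (fun q => ((F.cj (ix q)).sp_conds hm (h0 q)).2)
    fun q Y hY => ?_
  by_contra hne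
  exact hnb q (Or.inr ⟨Y, hY, hne⟩)


end Pool.Agent.TH504.VL
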