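import Mathlib
import Pool.Agent.W437.HP.Fam

/-!
# Families of abelian varieties with many moduli: definitions

A family of principally polarized abelian varieties over an open set `U` of `ℂ ^ k` is given by
its period matrices `Z t`, symmetric with positive definite imaginary part: the member `t` is
`ℂ ^ g / (ℤ ^ g + Z(t) ℤ ^ g)`, its rational homology is `ℚ ^ g ⊕ ℚ ^ g`, and `perOne (Z t)`,
`(a, b) ↦ a + Z(t) b`, is the inclusion of the homology in the tangent space.
-/

namespace Pool.Agent.TH504.VL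

open Matrix Module Pool.Agent.W437.HC Pool.Agent.W437.HD Pool.Agent.W437.HP
  Pool.Agent.H204R3.CM Pool.Agent.H194R3.CM

variable {g k : ℕ}

/-- The Kodaira-Spencer map of a family of period matrices: the derivative of the period matrix. -/
noncomputable def ksMap (Z : (Fin k → ℂ) → Matrix (Fin g) (Fin g) ℂ) (s : Fin k → ℂ) :
    (Fin k → ℂ) →ₗ[ℂ] Matrix (Fin g) (Fin g) ℂ where
  toFun v := Matrix.of fun i j => fderiv ℂ (fun t => Z t i j) s v
  map_add' v w := by
    ext i j
    simp
  map_smul' c v := by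
    ext i j
    simp

/-- `φ` is an endomorphism of all members of the family. -/
def IsEndomorphism (U : Set (Fin k → ℂ)) (Z : (Fin k → ℂ) → Matrix (Fin g) (Fin g) ℂ)
    (φ : Matrix (Fin g ⊕ Fin g) (Fin g ⊕ Fin g) ℚ) : Prop :=
  ∀ t ∈ U, ∃ M : Matrix (Fin g) (Fin g) ℂ, ∀ w, perOne (Z t) (φ.mulVec w) = M.mulVec (perOne (Z t) w)

/-- The centre of the endomorphism algebra of the family is totally real: an endomorphism of the
family which commutes with all endomorphisms of the family is symmetric for the principal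
polarization. -/
def HasRealCentre (U : Set (Fin k → ℂ)) (Z : (Fin k → ℂ) → Matrix (Fin g) (Fin g) ℂ) : Prop :=
  ∀ φ, IsEndomorphism U Z φ → (∀ ψ, IsEndomorphism U Z ψ → φ * ψ = ψ * φ) →
    φ.transpose * fromBlocks 0 1 (-1) 0 = fromBlocks 0 1 (-1) 0 * φ

/-- `Z` is a holomorphic family of period matrices over `U` with a simple member, the centre of the
endomorphism algebra of the family is totally real and at some point the rank of the Kodaira-Spencer
map is more than `(g - 1) ^ 2 / 8`. -/
def IsLargeFamily (U : Set (Fin k → ℂ)) (Z : (Fin k → ℂ) → Matrix (Fin g) (Fin g) ℂ) : Prop :=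
  (∀ i j, AnalyticOnNhd ℂ (fun t => Z t i j) U) ∧
  (∀ t ∈ U, (Z t).transpose = Z t ∧ ((Z t).map Complex.im).PosDef) ∧
  (∃ s ∈ U, IsSimpleAV (Z s)) ∧ HasRealCentre U Z ∧
  ∃ s ∈ U, (g - 1) ^ 2 < 8 * finrank ℂ (LinearMap.range (ksMap Z s))

/-- The span of the products `B 0 ∧ ... ∧ B (m - 1)` of flat classes of degree two which are Hodge
classes on all members of a family (`per t` is the inclusion of the homology in the tangent space
of the member `t`). -/
def flatDivisorial {E W T : Type} [AddCommGroup W] [Module ℚ W] [AddCommGroup T] [Module ℂ T]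
    (U : Set E) (per : E → W →+ T) (m : ℕ) : Submodule ℚ (W [⋀^Fin m × Fin 2]→ₗ[ℚ] ℚ) :=
  Submodule.span ℚ {f | ∃ B : Fin m → W [⋀^Fin 2]→ₗ[ℚ] ℚ,
    (∀ l, ∀ t ∈ U, IsHodge (per t) (B l)) ∧
    ∀ v, f v = ∑ σ : Equiv.Perm (Fin m × Fin 2), (Equiv.Perm.sign σ : ℤ) *
      ∏ l, B l ![v (σ (l, 0)), v (σ (l, 1))]}

end Pool.Agent.TH504.VL
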