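import Mathlib
import Pool.Agent.TH125.RankIn
import Pool.Agent.TH504.VL.Big
import Pool.Agent.TH504.VL.Defs

/-!
# The derivatives of the period matrix and the Lie algebra
-/

set_option linter.unusedSectionVars false

namespace Pool.Agent.TH504.VL

open Matrix Module Filter Topology Pool.Agent.W437.HC Pool.Agent.W437.HD Pool.Agent.H204R3.CM
  Pool.Agent.H194R3.CM Pool.Agent.W548.Odd

variable {g : ℕ}

theorem LA_mono {B : Type*} [Fintype B] [DecidableEq B] {D D' : Set (Matrix B B ℂ)} (h : D ⊆ D') :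
    LA D ≤ LA D' :=
  LA_le ⟨fun _ hd f => LA_gen (h hd) f, fun _ hA _ hC => LA_br hA hC⟩

/-- The matrix of the eigenspace. -/
theorem TT_eq {Z : Matrix (Fin g) (Fin g) ℂ} (hY : IsUnit (imM Z).det) :
    TT Z = (-2 : ℂ) • (LM (Z.map (starRingEnd ℂ)) * (Z.map (starRingEnd ℂ) - Z)⁻¹) := by
  have hu := isUnit_bar_sub hY
  set Zb := Z.map (starRingEnd ℂ) with hZb
  have h1 : r10 g = (LM Z - LM Zb) * (Zb - Z)⁻¹ := by
    have h2 : LM Z - LM Zb = fromRows (Zb - Z) 0 := by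
      unfold LM
      ext i j
      rcases i with i | i
      · simp
        ring
      · simp
    rw [h2, fromRows_mul, mul_nonsing_inv _ hu, Matrix.zero_mul]
    rfl
  have h3 : (1 + DZ Z) * (LM Z - LM Zb) = (-2 : ℂ) • LM Zb := by
    rw [Matrix.mul_sub, Matrix.add_mul, Matrix.add_mul, DZ_LM hY, DZ_LM_bar hY, Matrix.one_mul,
      Matrix.one_mul, add_neg_cancel, zero_sub, neg_smul, two_smul]
  unfold TT
  rw [h1, ← Matrix.mul_assoc, h3, Matrix.smul_mul]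

/-- The dual matrix of the eigenspace. -/
theorem TT_Om_eq {Z : Matrix (Fin g) (Fin g) ℂ} (hZ : Zᵀ = Z) (hY : IsUnit (imM Z).det) :
    (TT Z)ᵀ * Om g ℂ = (2 : ℂ) • RM Z (Z.map (starRingEnd ℂ)) := by
  have hu := isUnit_bar_sub hY
  set Zb := Z.map (starRingEnd ℂ) with hZb
  obtain ⟨R', hR⟩ := LM_RM hu
  have h1 := TT_LM hZ hY
  have h2 : (TT Z)ᵀ * Om g ℂ * LM Zb = 0 := by
    rw [TT_Om hZ, Matrix.mul_assoc, Matrix.sub_mul, Matrix.one_mul, hZb, DZ_LM_bar hY, sub_self,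
      Matrix.mul_zero]
  calc (TT Z)ᵀ * Om g ℂ = (TT Z)ᵀ * Om g ℂ * (LM Z * RM Z Zb + LM Zb * R') := by
        rw [hR, Matrix.mul_one]
    _ = ((TT Z)ᵀ * Om g ℂ * LM Z) * RM Z Zb + ((TT Z)ᵀ * Om g ℂ * LM Zb) * R' := by
        rw [Matrix.mul_add, Matrix.mul_assoc, Matrix.mul_assoc, Matrix.mul_assoc,
          Matrix.mul_assoc, Matrix.mul_assoc, Matrix.mul_assoc]
    _ = (2 : ℂ) • RM Z Zb := by
        rw [h1, h2, Matrix.zero_mul, add_zero, Matrix.smul_mul, Matrix.one_mul]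

theorem TT_mul_eq {Z : Matrix (Fin g) (Fin g) ℂ} (hZ : Zᵀ = Z) (hY : IsUnit (imM Z).det)
    (A : Matrix (Fin g) (Fin g) ℂ) :
    TT Z * A * (TT Z)ᵀ * Om g ℂ = (-4 : ℂ) • (LM (Z.map (starRingEnd ℂ)) *
      ((Z.map (starRingEnd ℂ) - Z)⁻¹ * A) * RM Z (Z.map (starRingEnd ℂ))) := by
  rw [Matrix.mul_assoc (TT Z * A), TT_Om_eq hZ hY, TT_eq hY]
  simp only [Matrix.smul_mul, Matrix.mul_smul, smul_smul, Matrix.mul_assoc]
  norm_num

/-- The derivative of the period matrix along a curve gives an element of the Lie algebra. -/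
theorem deriv_mem {U : Set ℂ} (hU : IsOpen U) {Z : ℂ → Matrix (Fin g) (Fin g) ℂ}
    (hW : IsPer (Z '' U)) {t₀ : ℂ} (ht₀ : t₀ ∈ U) {Z' : Matrix (Fin g) (Fin g) ℂ}
    (hd : ∀ i j, HasDerivAt (fun t => Z t i j) (Z' i j) t₀) :
    TT (Z t₀) * Z' * (TT (Z t₀))ᵀ * Om g ℂ ∈ LA (DZ '' (Z '' U)) := by
  have hY : ∀ t ∈ U, IsUnit (imM (Z t)).det := fun t ht =>
    (hW _ ⟨t, ht, rfl⟩).2.isUnit.map Matrix.detMonoidHom
  rw [TT_mul_eq (hW _ ⟨t₀, ht₀, rfl⟩).1 (hY t₀ ht₀)]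
  set Z0 := Z t₀ with hZ0
  set Zb := Z0.map (starRingEnd ℂ) with hZb
  have hu0 : IsUnit (Zb - Z0).det := isUnit_bar_sub (hY t₀ ht₀)
  -- the limit
  set F : Matrix (Fin g) (Fin g) ℂ → Matrix (Fin g ⊕ Fin g) (Fin g ⊕ Fin g) ℂ :=
    fun A => (8 : ℂ) • (LM Zb * ((Zb - Z0)⁻¹ * A) * RM Z0 Zb) with hF
  have hFs : ∀ (c : ℂ) A, c • F A = F (c • A) := by
    intro c A
    simp only [hF]
    rw [smul_comm, Matrix.mul_smul, Matrix.mul_smul, Matrix.smul_mul]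
  have hmem : ∀ᶠ t in 𝓝[≠] t₀, F (((Z t).map (starRingEnd ℂ) - Z0) *
      ((Z t).map (starRingEnd ℂ) - Z t)⁻¹ * ((t - t₀)⁻¹ • (Z0 - Z t))) ∈ LA (DZ '' (Z '' U)) := by
    have h1 : ∀ᶠ t in 𝓝[≠] t₀, t ∈ U := nhdsWithin_le_nhds (hU.mem_nhds ht₀)
    filter_upwards [h1] with t ht
    have hj := jump_eq (DZ_LM (hY t₀ ht₀)) (DZ_LM_bar (hY t₀ ht₀)) (DZ_LM (hY t ht))
      (DZ_LM_bar (hY t ht)) (isUnit_bar_sub (hY t₀ ht₀)) (isUnit_bar_sub (hY t ht))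
    have hm1 : DZ (Z t₀) ∈ LA (DZ '' (Z '' U)) := LA_self ⟨Z t₀, ⟨t₀, ht₀, rfl⟩, rfl⟩
    have hm2 : DZ (Z t) ∈ LA (DZ '' (Z '' U)) := LA_self ⟨Z t, ⟨t, ht, rfl⟩, rfl⟩
    have h2 := jump_mem hm1 hm2 (DZ_sq (hY t₀ ht₀))
    rw [hj] at h2
    have h3 := Submodule.smul_mem _ (t - t₀)⁻¹ h2
    have h4 := hFs (t - t₀)⁻¹ (((Z t).map (starRingEnd ℂ) - Z0) *
      ((Z t).map (starRingEnd ℂ) - Z t)⁻¹ * (Z0 - Z t))
    rw [Matrix.mul_smul, ← h4]
    exact h3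
  -- continuity
  have hZc : Tendsto Z (𝓝[≠] t₀) (𝓝 Z0) := by
    refine tendsto_pi_nhds.2 fun i => tendsto_pi_nhds.2 fun j => ?_
    exact (hd i j).continuousAt.tendsto.mono_left nhdsWithin_le_nhds
  have hZbc : Tendsto (fun t => (Z t).map (starRingEnd ℂ)) (𝓝[≠] t₀) (𝓝 Zb) := by
    refine tendsto_pi_nhds.2 fun i => tendsto_pi_nhds.2 fun j => ?_
    have h1 : Tendsto (fun t => Z t i j) (𝓝[≠] t₀) (𝓝 (Z0 i j)) :=
      (hd i j).continuousAt.tendsto.mono_left nhdsWithin_le_nhds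
    exact (Complex.continuous_conj.tendsto _).comp h1
  have hinv : Tendsto (fun t => ((Z t).map (starRingEnd ℂ) - Z t)⁻¹) (𝓝[≠] t₀)
      (𝓝 (Zb - Z0)⁻¹) := by
    have h1 : ContinuousAt Inv.inv (Zb - Z0) := by
      apply continuousAt_matrix_inv
      rw [Ring.inverse_eq_inv']
      exact continuousAt_inv₀ hu0.ne_zero
    exact h1.tendsto.comp (hZbc.sub hZc)
  have hdq : Tendsto (fun t => (t - t₀)⁻¹ • (Z0 - Z t)) (𝓝[≠] t₀) (𝓝 (-Z')) := by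
    refine tendsto_pi_nhds.2 fun i => tendsto_pi_nhds.2 fun j => ?_
    have h1 := (hasDerivAt_iff_tendsto_slope.1 (hd i j)).neg
    refine h1.congr fun t => ?_
    simp only [slope, vsub_eq_sub, smul_eq_mul, Matrix.smul_apply, Matrix.sub_apply, hZ0]
    ring
  have hlim : Tendsto (fun t => F (((Z t).map (starRingEnd ℂ) - Z0) *
      ((Z t).map (starRingEnd ℂ) - Z t)⁻¹ * ((t - t₀)⁻¹ • (Z0 - Z t)))) (𝓝[≠] t₀)
      (𝓝 (F ((Zb - Z0) * (Zb - Z0)⁻¹ * (-Z')))) := by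
    have hFc : Continuous F := by
      simp only [hF]
      fun_prop
    refine (hFc.tendsto _).comp ?_
    exact ((hZbc.sub_const Z0).mul hinv).mul hdq
  have hcl : IsClosed ((LA (DZ '' (Z '' U)) : Submodule ℂ _) : Set
      (Matrix (Fin g ⊕ Fin g) (Fin g ⊕ Fin g) ℂ)) := Submodule.closed_of_finiteDimensional _
  have hN := hcl.mem_of_tendsto hlim hmem
  rw [mul_nonsing_inv _ hu0, one_mul] at hN
  have h5 : (-4 : ℂ) • (LM Zb * ((Zb - Z0)⁻¹ * Z') * RM Z0 Zb) = (2 : ℂ)⁻¹ • F (-Z') := by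
    simp only [hF]
    rw [smul_smul, Matrix.mul_neg, Matrix.mul_neg, Matrix.neg_mul, smul_neg, neg_smul]
    norm_num
  rw [h5]
  exact Submodule.smul_mem _ _ hN

section ks

variable {k : ℕ}

/-- The values of the Kodaira-Spencer map. -/
theorem ks_mem {U : Set (Fin k → ℂ)} (hU : IsOpen U)
    {Z : (Fin k → ℂ) → Matrix (Fin g) (Fin g) ℂ}
    (hol : ∀ i j, AnalyticOnNhd ℂ (fun t => Z t i j) U) (hW : IsPer (Z '' U))
    {s : Fin k → ℂ} (hs : s ∈ U) (v : Fin k → ℂ) : ksMap Z s v ∈ WS (Z '' U) (Z s) := by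
  -- the curve
  let c : ℂ → (Fin k → ℂ) := fun z => s + z • v
  have hc : Continuous c := by fun_prop
  have hc0 : c 0 = s := by simp [c]
  have hcd : HasDerivAt c v 0 := by
    have h1 : HasDerivAt (fun z : ℂ => z • v) ((1 : ℂ) • v) 0 := (hasDerivAt_id (0 : ℂ)).smul_const v
    rw [one_smul] at h1
    exact h1.const_add s
  have hd : ∀ i j, HasDerivAt (fun z => Z (c z) i j) (ksMap Z s v i j) 0 := by
    intro i j
    have h1 : HasFDerivAt (fun t => Z t i j) (fderiv ℂ (fun t => Z t i j) s) (c 0) := by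
      rw [hc0]
      exact ((hol i j) s hs).differentiableAt.hasFDerivAt
    exact h1.comp_hasDerivAt 0 hcd
  have hsub : (fun z => Z (c z)) '' (c ⁻¹' U) ⊆ Z '' U := by
    rintro _ ⟨z, hz, rfl⟩
    exact ⟨c z, hz, rfl⟩
  have h0 : (0 : ℂ) ∈ c ⁻¹' U := by
    change c 0 ∈ U
    rw [hc0]
    exact hs
  refine ⟨?_, ?_⟩
  · ext i j
    change ksMap Z s v j i = ksMap Z s v i j
    refine (hd j i).unique ?_
    refine (hd i j).congr_of_eventuallyEq ?_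
    filter_upwards [(hU.preimage hc).mem_nhds h0] with z hz
    have h1 := (hW _ ⟨c z, hz, rfl⟩).1
    exact congrFun (congrFun h1 i) j
  · have h1 := deriv_mem (hU.preimage hc) (Z := fun z => Z (c z)) (fun M hM => hW M (hsub hM)) h0 hd
    have h2 := LA_mono (Set.image_mono (f := DZ) hsub) h1
    simp only [hc0] at h2
    exact h2

end ks

end Pool.Agent.TH504.VL
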