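import Mathlib
import Pool.Agent.W548.Odd.VG
import Pool.Agent.W548.Odd.Hodge

/-!
# Very general members of families over bases of any dimension
-/

set_option linter.unusedSectionVars false

namespace Pool.Agent.TH504.VL

open Matrix Module Filter Topology Pool.Agent.W437.HC Pool.Agent.W437.HD Pool.Agent.H204R3.CM
  Pool.Agent.H194R3.CM Pool.Agent.W548.Odd

section gen

variable {E : Type*} [NormedAddCommGroup E] [NormedSpace ℂ E]

/-- The complement of the zero set of a nonzero analytic function is open and dense. -/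
theorem dense_ne {U : Set E} (hU : IsOpen U) (hc : IsPreconnected U)
    {f : E → ℂ} (hf : AnalyticOnNhd ℂ f U) (hne : ∃ s ∈ U, f s ≠ 0) :
    IsOpen {t | t ∈ U ∧ f t ≠ 0} ∧
      ∀ V : Set E, IsOpen V → (V ∩ U).Nonempty → (V ∩ {t | t ∈ U ∧ f t ≠ 0}).Nonempty := by
  constructor
  · exact hf.continuousOn.isOpen_inter_preimage hU isOpen_compl_singleton
  · rintro V hV ⟨x, hxV, hxU⟩
    by_contra hcon
    rw [Set.not_nonempty_iff_eq_empty] at hcon
    obtain ⟨s, hs, hfs⟩ := hne
    apply hfs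
    have h1 : f =ᶠ[𝓝 x] 0 := by
      filter_upwards [hV.mem_nhds hxV, hU.mem_nhds hxU] with y hy hyU
      by_contra hy0
      have h2 : y ∈ (∅ : Set E) := by
        rw [← hcon]
        exact ⟨hy, hyU, hy0⟩
      exact h2
    exact hf.eqOn_zero_of_preconnected_of_eventuallyEq_zero hc hxU h1 hs

/-- Countably many nonzero analytic functions have a common point where none of them vanishes. -/
theorem exists_point [CompleteSpace E] {U : Set E} (hU : IsOpen U) (hc : IsPreconnected U)
    (hne : U.Nonempty) {ι : Type*} [Countable ι] (f : ι → E → ℂ)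
    (hf : ∀ i, AnalyticOnNhd ℂ (f i) U) (hnz : ∀ i, ∃ s ∈ U, f i s ≠ 0) :
    ∃ t ∈ U, ∀ i, f i t ≠ 0 := by
  have hG : Dense (⋂ i, ({t | t ∈ U ∧ f i t ≠ 0} ∪ (closure U)ᶜ)) := by
    apply dense_iInter_of_isOpen
    · intro i
      exact ((dense_ne hU hc (hf i) (hnz i)).1).union isClosed_closure.isOpen_compl
    · intro i
      rw [dense_iff_inter_open]
      intro O hO hOne
      by_cases h : (O ∩ U).Nonempty
      · obtain ⟨x, hx1, hx2⟩ := (dense_ne hU hc (hf i) (hnz i)).2 O hO h
        exact ⟨x, hx1, Or.inl hx2⟩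
      · obtain ⟨x, hx⟩ := hOne
        refine ⟨x, hx, Or.inr ?_⟩
        intro hcl
        rw [mem_closure_iff] at hcl
        exact h (hcl O hO hx)
  obtain ⟨t, ht1, ht3⟩ := hG.inter_open_nonempty U hU hne
  refine ⟨t, ht1, fun i => ?_⟩
  rcases Set.mem_iInter.1 ht3 i with h | h
  · exact h.2
  · exact absurd (subset_closure ht1) h

variable {g : ℕ}

/-- The analytic functions whose common nonvanishing makes a member very general. -/
theorem vg_functions {U : Set E} (Z : E → Matrix (Fin g) (Fin g) ℂ)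
    (hol : ∀ i j, AnalyticOnNhd ℂ (fun t => Z t i j) U)
    (hY : ∀ t ∈ U, IsUnit (imM (Z t)).det) :
    ∃ (T : Type) (_ : Countable T) (f : T → E → ℂ), (∀ p, AnalyticOnNhd ℂ (f p) U) ∧
      (∀ p, ∃ s ∈ U, f p s ≠ 0) ∧
      ∀ t ∈ U, (∀ p, f p t ≠ 0) → ∀ s ∈ U, DZ (Z s) ∈ lieM (DZ (Z t)) ℂ := by
  classical
  let T : Type := {p : Σ n : ℕ, (Fin n → Fin g ⊕ Fin g) → ℚ // ∃ s ∈ U, ¬ IsH (DZ (Z s)) p.2}
  have key : ∀ p : T, ∃ (S : Finset (Fin p.1.1)) (_ : p.1.1 < 2 * S.card)
      (x : Fin p.1.1 → Fin g ⊕ Fin g → ℂ), ∃ s ∈ U, evalF (cst ℂ p.1.2)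
        (fun k => if k ∈ S then RR (Z s) *ᵥ x k else x k) ≠ 0 := by
    rintro ⟨p, s, hs, hsH⟩
    rw [isH_iff (hY s hs)] at hsH
    push Not at hsH
    obtain ⟨S, hS, x, hx⟩ := hsH
    exact ⟨S, hS, x, s, hs, hx⟩
  choose S hS x hx using key
  have hR : ∀ i j, AnalyticOnNhd ℂ (fun t => RR (Z t) i j) U := by
    intro i j
    rcases i with i | i <;> rcases j with j | j
    · exact analyticOnNhd_const
    · exact (hol i j).neg
    · exact analyticOnNhd_const
    · exact analyticOnNhd_const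
  refine ⟨T, inferInstance, fun p t => evalF (cst ℂ p.1.2)
        (fun k => if k ∈ S p then RR (Z t) *ᵥ x p k else x p k), fun p => ?_, hx, ?_⟩
  · unfold evalF
    refine Finset.analyticOnNhd_fun_sum _ fun I _ => ?_
    refine AnalyticOnNhd.mul analyticOnNhd_const ?_
    refine Finset.analyticOnNhd_fun_prod _ fun k _ => ?_
    by_cases hk : k ∈ S p
    · simp only [hk, if_true, mulVec, dotProduct]
      refine Finset.analyticOnNhd_fun_sum _ fun j _ => ?_
      exact (hR _ _).mul analyticOnNhd_const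
    · simp only [hk, if_false]
      exact analyticOnNhd_const
  · intro t ht hp s hs n c hcH
    by_contra hcon
    let p : T := ⟨⟨n, c⟩, s, hs, hcon⟩
    exact hp p ((isH_iff (hY t ht) c).1 hcH (S p) (hS p) (x p))

end gen

end Pool.Agent.TH504.VL
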