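import Mathlib
import Pool.Agent.TH125.VhcMain
import Pool.Agent.TH504.VL.VG
import Pool.Agent.TH504.VL.KS

/-!
# Families with a large Kodaira-Spencer rank
-/

set_option linter.unusedSectionVars false

namespace Pool.Agent.TH504.VL

open Matrix Module Filter Topology Pool.Agent.W437.HC Pool.Agent.W437.HD Pool.Agent.W437.HP
  Pool.Agent.W437.HR Pool.Agent.H204R3.CM Pool.Agent.H194R3.CM Pool.Agent.W548.Odd

variable {g k : ℕ}

/-- The rank of the Kodaira-Spencer map is at least the rank at a given point outside of the zero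
set of an analytic function. -/
theorem exists_minor {U : Set (Fin k → ℂ)} {Z : (Fin k → ℂ) → Matrix (Fin g) (Fin g) ℂ}
    (hol : ∀ i j, AnalyticOnNhd ℂ (fun t => Z t i j) U) {s : Fin k → ℂ} {d : ℕ}
    (hd : d = finrank ℂ (LinearMap.range (ksMap Z s))) :
    ∃ h : (Fin k → ℂ) → ℂ, AnalyticOnNhd ℂ h U ∧ h s ≠ 0 ∧
      ∀ t, h t ≠ 0 → ∃ u : Fin d → (Fin k → ℂ), LinearIndependent ℂ (fun j => ksMap Z t (u j)) := by
  classical
  subst hd
  set d := finrank ℂ (LinearMap.range (ksMap Z s)) with hd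
  let b := finBasis ℂ (LinearMap.range (ksMap Z s))
  have hu : ∀ j, ∃ u, ksMap Z s u = (b j : Matrix (Fin g) (Fin g) ℂ) := fun j => (b j).2
  choose u hu using hu
  have hli : LinearIndependent ℂ (fun j => ksMap Z s (u j)) := by
    have h1 := b.linearIndependent.map' (Submodule.subtype _) (Submodule.ker_subtype _)
    have h2 : (fun j => ksMap Z s (u j)) = (Submodule.subtype _) ∘ b := funext hu
    rw [h2]
    exact h1
  obtain ⟨π, hπ⟩ := LinearMap.exists_leftInverse_of_injective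
    (Fintype.linearCombination ℂ (fun j => ksMap Z s (u j))) (by
      rw [LinearMap.ker_eq_bot]
      exact hli.fintypeLinearCombination_injective)
  have hπ' : ∀ j, π (ksMap Z s (u j)) = Pi.single j 1 := by
    intro j
    have h1 := congrArg (fun F => F (Pi.single j (1 : ℂ))) hπ
    simpa [Fintype.linearCombination_apply_single] using h1
  let M : (Fin k → ℂ) → Matrix (Fin d) (Fin d) ℂ := fun t =>
    Matrix.of fun l j => π (ksMap Z t (u j)) l
  refine ⟨fun t => (M t).det, ?_, ?_, ?_⟩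
  · have hent : ∀ l j, AnalyticOnNhd ℂ (fun t => M t l j) U := by
      intro l j
      have h1 : (fun t => M t l j) = fun t => ∑ a, ∑ c,
          fderiv ℂ (fun t => Z t a c) t (u j) * π (Matrix.single a c 1) l := by
        funext t
        change π (ksMap Z t (u j)) l = _
        conv_lhs => rw [Matrix.matrix_eq_sum_single (ksMap Z t (u j))]
        simp only [map_sum, Finset.sum_apply]
        refine Finset.sum_congr rfl fun a _ => Finset.sum_congr rfl fun c _ => ?_
        have h2 : Matrix.single a c (ksMap Z t (u j) a c) =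
            (ksMap Z t (u j) a c) • Matrix.single a c (1 : ℂ) := by
          rw [Matrix.smul_single, smul_eq_mul, mul_one]
        rw [h2, map_smul, Pi.smul_apply, smul_eq_mul]
        rfl
      rw [h1]
      refine Finset.analyticOnNhd_fun_sum _ fun a _ => Finset.analyticOnNhd_fun_sum _ fun c _ => ?_
      refine AnalyticOnNhd.mul ?_ analyticOnNhd_const
      have h3 := (hol a c).fderiv
      exact (ContinuousLinearMap.apply ℂ ℂ (u j)).comp_analyticOnNhd h3
    have h1 : (fun t => (M t).det) = fun t => ∑ σ : Equiv.Perm (Fin d),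
        ((Equiv.Perm.sign σ : ℤ) : ℂ) * ∏ i, M t (σ i) i := by
      funext t
      exact Matrix.det_apply' (M t)
    rw [h1]
    refine Finset.analyticOnNhd_fun_sum _ fun σ _ => ?_
    refine AnalyticOnNhd.mul analyticOnNhd_const ?_
    exact Finset.analyticOnNhd_fun_prod _ fun i _ => hent _ _
  · have h1 : M s = 1 := by
      ext l j
      change π (ksMap Z s (u j)) l = _
      rw [hπ' j, Matrix.one_apply, Pi.single_apply]
    change (M s).det ≠ 0
    rw [h1, det_one]
    exact one_ne_zero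
  · intro t ht
    refine ⟨u, ?_⟩
    rw [Fintype.linearIndependent_iff]
    intro c hc j
    have h1 : (M t) *ᵥ c = 0 := by
      funext l
      have h2 := congrFun (congrArg π hc) l
      rw [map_sum, map_zero, Finset.sum_apply] at h2
      rw [mulVec, dotProduct]
      refine Eq.trans (Finset.sum_congr rfl fun x _ => ?_) h2
      rw [map_smul, Pi.smul_apply, smul_eq_mul, mul_comm]
      rfl
    exact congrFun (Matrix.eq_zero_of_mulVec_eq_zero ht h1) j

/-- The pieces at very general points. -/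
theorem large_pcs {U : Set (Fin k → ℂ)} (hU : IsOpen U)
    {Z : (Fin k → ℂ) → Matrix (Fin g) (Fin g) ℂ} (h : IsLargeFamily U Z) :
    ∃ h : (Fin k → ℂ) → ℂ, AnalyticOnNhd ℂ h U ∧ (∃ s ∈ U, h s ≠ 0) ∧
      ∀ t ∈ U, h t ≠ 0 → (∀ s ∈ U, DZ (Z s) ∈ lieM (DZ (Z t)) ℂ) → HasPcs (DZ (Z t)) := by
  obtain ⟨hol, hper, ⟨s, hs, hsimple⟩, hreal, s1, hs1, hd⟩ := h
  have hW : IsPer (Z '' U) := by
    rintro _ ⟨t, ht, rfl⟩
    exact hper t ht
  have hY : ∀ t ∈ U, IsUnit (imM (Z t)).det := fun t ht =>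
    (hper t ht).2.isUnit.map Matrix.detMonoidHom
  obtain ⟨f, hf, hfs, hft⟩ := exists_minor hol (s := s1) rfl
  refine ⟨f, hf, ⟨s1, hs1, hfs⟩, fun t ht htf hvg => ?_⟩
  obtain ⟨hZt, hpos⟩ := hper t ht
  have hL : LA (DZ '' (Z '' U)) ≤ lieM (DZ (Z t)) ℂ := by
    refine LA_le_lieM ?_
    rintro _ ⟨_, ⟨s', hs', rfl⟩, rfl⟩
    exact hvg s' hs'
  have h2 : IsSimpleAV (Z t) := simple_of_mem hZt hpos (hper s hs).2 (hvg s hs) hsimple
  obtain ⟨u, hu⟩ := hft t htf
  have hdim : finrank ℂ (LinearMap.range (ksMap Z s1)) ≤ finrank ℂ (WS (Z '' U) (Z t)) := by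
    let v : Fin (finrank ℂ (LinearMap.range (ksMap Z s1))) → WS (Z '' U) (Z t) :=
      fun j => ⟨ksMap Z t (u j), ks_mem hU hol hW ht (u j)⟩
    have h3 : LinearIndependent ℂ v :=
      LinearIndependent.of_comp (Submodule.subtype _) hu
    have h4 := h3.fintype_card_le_finrank
    rwa [Fintype.card_fin] at h4
  have key : ∀ (ψ : Matrix (Fin g ⊕ Fin g) (Fin g ⊕ Fin g) ℚ) (N' : Matrix (Fin g) (Fin g) ℂ),
      Pool.Agent.W437.HQ.IsEndo (Z t) ψ N' → IsEndomorphism U Z ψ := by
    intro ψ N' hψ s' hs'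
    have h3 := Pool.Agent.W437.HQ.comm_lie hZt (Pool.Agent.W437.HQ.endo_comm (hY t ht) hψ)
      (hvg s' hs')
    exact ⟨_, Pool.Agent.W437.HQ.endo_of_comm (hY s' hs') h3⟩
  refine hasPcs_of_realW hZt hpos h2 hW ⟨t, ht, rfl⟩ hL ?_ ?_
  · rcases g with _ | g
    · have h5 := Submodule.finrank_le (LinearMap.range (ksMap Z s1))
      rw [Module.finrank_matrix] at h5
      simp at h5 hd
      omega
    · have h6 : g ^ 2 < 8 * finrank ℂ (LinearMap.range (ksMap Z s1)) := by simpa using hd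
      have h7 : (g + 1) ^ 2 + 1 = g ^ 2 + 2 * (g + 1) := by ring
      omega
  · intro φ M hφ hcomm
    refine hreal φ (key φ M hφ) fun ψ hψ => ?_
    obtain ⟨N', hN'⟩ := hψ t ht
    exact hcomm ψ N' hN'

/-- There is a point which is very general for all the families and their product, at which all
families have pieces. -/
theorem exists_good {ι : Type} [Fintype ι] {U : Set (Fin k → ℂ)} (hU : IsOpen U)
    (hc : IsPreconnected U) (hne : U.Nonempty) {g : ι → ℕ}
    (Z : ∀ i, (Fin k → ℂ) → Matrix (Fin (g i)) (Fin (g i)) ℂ)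
    (hlarge : ∀ i, IsLargeFamily U (Z i)) : ∃ t₀ ∈ U, (∀ i, HasPcs (DZ (Z i t₀))) ∧
      ∀ s ∈ U, DZ (bigD ℂ (fun i => Z i s)) ∈ lieM (DZ (bigD ℂ (fun i => Z i t₀))) ℂ := by
  classical
  have hYi : ∀ i, ∀ t ∈ U, IsUnit (imM (Z i t)).det := fun i t ht =>
    ((hlarge i).2.1 t ht).2.isUnit.map Matrix.detMonoidHom
  have hYb : ∀ t ∈ U, IsUnit (imM (bigD ℂ (fun i => Z i t))).det := fun t ht =>
    (imM_bigD_posDef (fun i => Z i t) fun i => ((hlarge i).2.1 t ht).2).isUnit.map
      Matrix.detMonoidHom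
  have hbol : ∀ a b, AnalyticOnNhd ℂ (fun t => bigD ℂ (fun i => Z i t) a b) U := by
    intro a b
    unfold bigD
    simp only [Matrix.sum_apply, Matrix.mul_apply, Matrix.transpose_apply]
    refine Finset.analyticOnNhd_fun_sum _ fun i _ => Finset.analyticOnNhd_fun_sum _ fun x _ => ?_
    refine AnalyticOnNhd.mul ?_ analyticOnNhd_const
    refine Finset.analyticOnNhd_fun_sum _ fun y _ => ?_
    exact AnalyticOnNhd.mul analyticOnNhd_const ((hlarge i).1 _ _)
  choose T hT f hf hfs hft using fun i => vg_functions (Z i) (hlarge i).1 (hYi i)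
  obtain ⟨T', hT', f', hf', hfs', hft'⟩ := vg_functions (fun t => bigD ℂ (fun i => Z i t)) hbol hYb
  choose h hh hhs hht using fun i => large_pcs hU (hlarge i)
  have : ∀ i, Countable (T i) := hT
  let F : (Σ i, T i) ⊕ (T' ⊕ ι) → (Fin k → ℂ) → ℂ :=
    Sum.elim (fun p => f p.1 p.2) (Sum.elim f' h)
  obtain ⟨t₀, ht₀, hF⟩ := exists_point hU hc hne F (by
    rintro (p | p | p)
    · exact hf p.1 p.2
    · exact hf' p
    · exact hh p) (by
    rintro (p | p | p)
    · exact hfs p.1 p.2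
    · exact hfs' p
    · exact hhs p)
  refine ⟨t₀, ht₀, fun i => ?_, ?_⟩
  · refine hht i t₀ ht₀ (hF (Sum.inr (Sum.inr i))) ?_
    exact hft i t₀ ht₀ fun p => hF (Sum.inl ⟨i, p⟩)
  · exact hft' t₀ ht₀ fun p => hF (Sum.inr (Sum.inl p))

/-- The variational Hodge conjecture for fibre products of large families. -/
theorem vhc {ι : Type} [Fintype ι] {U : Set (Fin k → ℂ)} (hU : IsOpen U)
    (hc : IsPreconnected U) (hne : U.Nonempty) {g : ι → ℕ}
    (Z : ∀ i, (Fin k → ℂ) → Matrix (Fin (g i)) (Fin (g i)) ℂ)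
    (hlarge : ∀ i, IsLargeFamily U (Z i)) {n m : ℕ} (c : Fin n → ι)
    (f : (∀ j, Fin (g (c j)) ⊕ Fin (g (c j)) → ℚ) [⋀^Fin m × Fin 2]→ₗ[ℚ] ℚ)
    (hf : ∀ t ∈ U, IsHodge (perFam (fun i => Z i t) c) f) :
    f ∈ flatDivisorial U (fun t => perFam (fun i => Z i t) c) m := by
  classical
  have hper : ∀ i, ∀ t ∈ U, (Z i t).transpose = Z i t ∧ (imM (Z i t)).PosDef := fun i =>
    (hlarge i).2.1
  obtain ⟨t0, ht0, hp, hb⟩ := exists_good hU hc hne Z hlarge
  have hdiv : f ∈ divisorial (perFam (fun i => Z i t0) c) m :=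
    divisorial_of_pcs (fun i => Z i t0) (fun i => (hper i t0 ht0).1)
      (fun i => (hper i t0 ht0).2) hp c f (hf t0 ht0)
  refine Submodule.span_mono ?_ hdiv
  rintro F ⟨B, hB, hF⟩
  refine ⟨B, fun l t ht => ?_, hF⟩
  exact Pool.Agent.TH125.isHodge_transport (fun i => (hper i t0 ht0).2)
    (fun i => (hper i t ht).2) (hb t ht) c (hB l)

end Pool.Agent.TH504.VL
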